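import Pool.Agent.H23.AF.Targets
import Pool.Agent.H31.AE.HO

/-! Module HG: Hölder's inequality for coincidences in a finite commutative group. -/

set_option autoImplicit false

namespace Pool.Agent.H33.AF

open Pool.Agent.H23.AF Finset
open scoped ComplexConjugate

theorem cardA (G : Type) [Fintype G] [Fintype (Additive G)] :
    Fintype.card (Additive G) = Fintype.card G :=
  Fintype.card_congr Additive.toMul

/-- orthogonality of the characters -/
theorem orth {G : Type} [CommGroup G] [Fintype G] [DecidableEq G] {κ : Type} (S : Finset κ)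
    (g : κ → G) :
    ∑ ψ : AddChar (Additive G) ℂ, ‖∑ s ∈ S, ψ (Additive.ofMul (g s))‖ ^ 2 =
      (Fintype.card G : ℝ) * (((S ×ˢ S).filter (fun t => g t.1 = g t.2)).card : ℝ) := by
  have h1 : ∀ ψ : AddChar (Additive G) ℂ,
      ((‖∑ s ∈ S, ψ (Additive.ofMul (g s))‖ ^ 2 : ℝ) : ℂ) =
      ∑ t ∈ S ×ˢ S, ψ (Additive.ofMul (g t.1) + -Additive.ofMul (g t.2)) := by
    intro ψ
    rw [Complex.ofReal_pow, ← Complex.mul_conj', map_sum, Finset.sum_mul_sum, ← Finset.sum_product']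
    refine Finset.sum_congr rfl fun t _ => ?_
    rw [AddChar.map_add_eq_mul, AddChar.map_neg_eq_conj]
  have h2 : ((∑ ψ : AddChar (Additive G) ℂ, ‖∑ s ∈ S, ψ (Additive.ofMul (g s))‖ ^ 2 : ℝ) : ℂ) =
      (((Fintype.card G : ℝ) * (((S ×ˢ S).filter (fun t => g t.1 = g t.2)).card : ℝ) : ℝ) : ℂ) := by
    rw [Complex.ofReal_sum, Finset.sum_congr rfl fun ψ _ => h1 ψ, Finset.sum_comm]
    have h3 : ∀ t ∈ S ×ˢ S, ∑ ψ : AddChar (Additive G) ℂ,
        ψ (Additive.ofMul (g t.1) + -Additive.ofMul (g t.2)) =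
        if g t.1 = g t.2 then (Fintype.card G : ℂ) else 0 := by
      intro t _
      rw [AddChar.sum_apply_eq_ite]
      have h4 : (Additive.ofMul (g t.1) + -Additive.ofMul (g t.2) = 0) ↔ g t.1 = g t.2 := by
        rw [← sub_eq_add_neg, sub_eq_zero]
        exact Additive.ofMul.injective.eq_iff
      simp only [h4, cardA]
    rw [Finset.sum_congr rfl h3, ← Finset.sum_filter, Finset.sum_const, nsmul_eq_mul]
    push_cast
    ring
  exact_mod_cast h2

/-- the character sum of a set -/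
noncomputable def Sj {G : Type} [CommGroup G] (B : Finset ℕ) (f : ℕ → G)
    (ψ : AddChar (Additive G) ℂ) : ℂ := ∑ y ∈ B, ψ (Additive.ofMul (f y))

theorem map_sum_prod {A ι : Type} [AddCommMonoid A] (ψ : AddChar A ℂ) (s : Finset ι) (a : ι → A) :
    ψ (∑ i ∈ s, a i) = ∏ i ∈ s, ψ (a i) := by
  classical
  induction s using Finset.induction_on with
  | empty => rw [Finset.sum_empty, Finset.prod_empty, AddChar.map_zero_eq_one]
  | insert i s hi ih =>
    rw [Finset.sum_insert hi, Finset.prod_insert hi, AddChar.map_add_eq_mul, ih]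

theorem prod_Sj {G : Type} [CommGroup G] {K : ℕ} (B : Fin K → Finset ℕ) (f : Fin K → ℕ → G)
    (ψ : AddChar (Additive G) ℂ) :
    ∑ s ∈ Fintype.piFinset B, ψ (Additive.ofMul (∏ j, f j (s j))) = ∏ j, Sj (B j) (f j) ψ := by
  unfold Sj
  rw [Finset.prod_univ_sum]
  refine Finset.sum_congr rfl fun s _ => ?_
  rw [ofMul_prod, map_sum_prod]

theorem sum_prod {G : Type} [CommGroup G] [Fintype G] [DecidableEq G] {K : ℕ}
    (B : Fin K → Finset ℕ) (f : Fin K → ℕ → G) :
    ∑ ψ : AddChar (Additive G) ℂ, ∏ j, ‖Sj (B j) (f j) ψ‖ ^ 2 =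
      (Fintype.card G : ℝ) * ((((Fintype.piFinset B) ×ˢ (Fintype.piFinset B)).filter
        (fun t => ∏ j, f j (t.1 j) = ∏ j, f j (t.2 j))).card : ℝ) := by
  rw [← orth (Fintype.piFinset B) (fun s => ∏ j, f j (s j))]
  refine Finset.sum_congr rfl fun ψ _ => ?_
  rw [prod_Sj, norm_prod, Finset.prod_pow]

theorem sum_pow {G : Type} [CommGroup G] [Fintype G] [DecidableEq G]
    (B : Finset ℕ) (f : ℕ → G) (n : ℕ) :
    ∑ ψ : AddChar (Additive G) ℂ, (‖Sj B f ψ‖ ^ 2) ^ n = (Fintype.card G : ℝ) * En B f n := by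
  have h := sum_prod (fun _ : Fin n => B) (fun _ => f)
  unfold En
  rw [← h]
  refine Finset.sum_congr rfl fun ψ _ => ?_
  rw [Finset.prod_const, Finset.card_univ, Fintype.card_fin]

theorem En_pos {G : Type} [CommGroup G] [DecidableEq G] {B : Finset ℕ} (hB : B.Nonempty)
    (f : ℕ → G) (n : ℕ) : 0 < En B f n := by
  obtain ⟨b, hb⟩ := hB
  unfold En
  rw [Nat.cast_pos, Finset.card_pos]
  refine ⟨(fun _ => b, fun _ => b), ?_⟩
  rw [Finset.mem_filter, Finset.mem_product]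
  refine ⟨⟨Fintype.mem_piFinset.2 fun _ => hb, Fintype.mem_piFinset.2 fun _ => hb⟩, rfl⟩

theorem pf_HG : T_HG := by
  classical
  intro G _ _ _ K B f J n α β hJ hsum
  set N : ℝ := (Fintype.card G : ℝ) with hN
  have hN0 : 0 < N := by
    rw [hN]
    exact_mod_cast Fintype.card_pos
  have hEn0 : ∀ j m, 0 ≤ En (B j) (f j) m := fun j m => Nat.cast_nonneg _
  have hR0 : 0 ≤ (∏ j ∈ Jᶜ, ((B j).card : ℝ) ^ 2) *
      ∏ j ∈ J, (En (B j) (f j) (n j) ^ α j * En (B j) (f j) (n j + 1) ^ β j) := by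
    refine mul_nonneg (prod_nonneg fun j _ => by positivity) (prod_nonneg fun j _ => ?_)
    exact mul_nonneg (Real.rpow_nonneg (hEn0 _ _) _) (Real.rpow_nonneg (hEn0 _ _) _)
  by_cases hne : ∀ j, (B j).Nonempty
  swap
  · push Not at hne
    obtain ⟨j, hj⟩ := hne
    have h0 : Fintype.piFinset B = ∅ := by
      rw [Finset.eq_empty_iff_forall_notMem]
      intro s hs
      have := Fintype.mem_piFinset.1 hs j
      rw [hj] at this
      exact absurd this (Finset.notMem_empty _)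
    rw [h0]
    simpa using hR0
  have hE0 : ∀ j, 0 < En (B j) (f j) (n j) := fun j => En_pos (hne j) _ _
  have hE1 : ∀ j, 0 < En (B j) (f j) (n j + 1) := fun j => En_pos (hne j) _ _
  set X : Fin K → AddChar (Additive G) ℂ → ℝ := fun j ψ => ‖Sj (B j) (f j) ψ‖ ^ 2 with hX
  have hX0 : ∀ j ψ, 0 ≤ X j ψ := fun j ψ => by positivity
  have hXle : ∀ j ψ, X j ψ ≤ ((B j).card : ℝ) ^ 2 := by
    intro j ψ
    refine pow_le_pow_left₀ (norm_nonneg _) ?_ 2
    unfold Sj
    refine (norm_sum_le _ _).trans ?_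
    rw [Finset.sum_congr rfl fun y _ => AddChar.norm_apply ψ (Additive.ofMul (f j y)),
      Finset.sum_const, nsmul_eq_mul, mul_one]
  set P : ℝ := ∏ j ∈ J, (En (B j) (f j) (n j) ^ α j * En (B j) (f j) (n j + 1) ^ β j) with hP
  have hP0 : 0 ≤ P := prod_nonneg fun j _ =>
    mul_nonneg (Real.rpow_nonneg (hEn0 _ _) _) (Real.rpow_nonneg (hEn0 _ _) _)
  -- pointwise bound
  have hpt : ∀ ψ, ∏ j ∈ J, X j ψ ≤ P *
      (∑ j ∈ J, α j * (X j ψ ^ n j / En (B j) (f j) (n j)) +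
        ∑ j ∈ J, β j * (X j ψ ^ (n j + 1) / En (B j) (f j) (n j + 1)) +
        (1 - ∑ j ∈ J, (α j + β j))) := by
    intro ψ
    have h1 : ∏ j ∈ J, X j ψ = P * (∏ j ∈ J, (X j ψ ^ n j / En (B j) (f j) (n j)) ^ α j) *
        ∏ j ∈ J, (X j ψ ^ (n j + 1) / En (B j) (f j) (n j + 1)) ^ β j := by
      rw [hP, ← Finset.prod_mul_distrib, ← Finset.prod_mul_distrib]
      refine Finset.prod_congr rfl fun j hj => ?_
      obtain ⟨h1, h2, h3, h4⟩ := hJ j hj
      have e0 : En (B j) (f j) (n j) ^ α j ≠ 0 := (Real.rpow_pos_of_pos (hE0 j) _).ne'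
      have e1 : En (B j) (f j) (n j + 1) ^ β j ≠ 0 := (Real.rpow_pos_of_pos (hE1 j) _).ne'
      rw [Real.div_rpow (pow_nonneg (hX0 j ψ) _) (hEn0 _ _),
        Real.div_rpow (pow_nonneg (hX0 j ψ) _) (hEn0 _ _)]
      have e2 : (X j ψ ^ n j) ^ α j * (X j ψ ^ (n j + 1)) ^ β j = X j ψ := by
        rw [← Real.rpow_natCast_mul (hX0 j ψ), ← Real.rpow_natCast_mul (hX0 j ψ),
          ← Real.rpow_add_of_nonneg (hX0 j ψ) (by positivity) (by positivity)]
        push_cast
        rw [h4, Real.rpow_one]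
      calc X j ψ = (X j ψ ^ n j) ^ α j * (X j ψ ^ (n j + 1)) ^ β j := e2.symm
        _ = _ := by
          field_simp
    rw [h1, mul_assoc]
    refine mul_le_mul_of_nonneg_left ?_ hP0
    have h5 := Pool.Agent.H31.AE.amgm_le (J.disjSum J) (Sum.elim α β)
      (Sum.elim (fun j => X j ψ ^ n j / En (B j) (f j) (n j))
        (fun j => X j ψ ^ (n j + 1) / En (B j) (f j) (n j + 1))) ?_ ?_ ?_
    · rw [Finset.prod_disjSum, Finset.sum_disjSum, Finset.sum_disjSum] at h5
      simp only [Sum.elim_inl, Sum.elim_inr] at h5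
      rw [Finset.sum_add_distrib]
      linarith
    · intro i hi
      rcases i with i | i
      · exact (hJ i (Finset.inl_mem_disjSum.1 hi)).2.1
      · exact (hJ i (Finset.inr_mem_disjSum.1 hi)).2.2.1
    · rw [Finset.sum_disjSum]
      simp only [Sum.elim_inl, Sum.elim_inr]
      rw [← Finset.sum_add_distrib]
      exact hsum
    · intro i _
      rcases i with i | i
      · exact div_nonneg (pow_nonneg (hX0 _ _) _) (hEn0 _ _)
      · exact div_nonneg (pow_nonneg (hX0 _ _) _) (hEn0 _ _)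
  have hcard : (Fintype.card (AddChar (Additive G) ℂ) : ℝ) = N := by
    rw [AddChar.card_eq, cardA]
  have hs0 : ∀ j, ∑ ψ, X j ψ ^ n j / En (B j) (f j) (n j) = N := by
    intro j
    rw [← Finset.sum_div, sum_pow]
    exact mul_div_cancel_right₀ _ (hE0 j).ne'
  have hs1 : ∀ j, ∑ ψ, X j ψ ^ (n j + 1) / En (B j) (f j) (n j + 1) = N := by
    intro j
    rw [← Finset.sum_div, sum_pow]
    exact mul_div_cancel_right₀ _ (hE1 j).ne'
  have hsumψ : ∑ ψ, ∏ j ∈ J, X j ψ ≤ P * N := by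
    refine (Finset.sum_le_sum fun ψ _ => hpt ψ).trans (le_of_eq ?_)
    rw [← Finset.mul_sum, Finset.sum_add_distrib, Finset.sum_add_distrib, Finset.sum_comm,
      Finset.sum_comm (s := Finset.univ) (t := J)
        (f := fun ψ j => β j * (X j ψ ^ (n j + 1) / En (B j) (f j) (n j + 1)))]
    simp only [← Finset.mul_sum, hs0, hs1, Finset.sum_const, Finset.card_univ, nsmul_eq_mul, hcard]
    rw [← Finset.sum_mul, ← Finset.sum_mul, Finset.sum_add_distrib]
    ring
  have hfin : N * ((((Fintype.piFinset B) ×ˢ (Fintype.piFinset B)).filter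
        (fun t => ∏ j, f j (t.1 j) = ∏ j, f j (t.2 j))).card : ℝ) ≤
      N * ((∏ j ∈ Jᶜ, ((B j).card : ℝ) ^ 2) * P) := by
    rw [← sum_prod B f]
    calc ∑ ψ, ∏ j, ‖Sj (B j) (f j) ψ‖ ^ 2
        = ∑ ψ, (∏ j ∈ J, X j ψ) * ∏ j ∈ Jᶜ, X j ψ := by
          refine Finset.sum_congr rfl fun ψ _ => ?_
          exact (Finset.prod_mul_prod_compl J (fun j => X j ψ)).symm
      _ ≤ ∑ ψ, (∏ j ∈ J, X j ψ) * ∏ j ∈ Jᶜ, ((B j).card : ℝ) ^ 2 := by
          refine Finset.sum_le_sum fun ψ _ => ?_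
          refine mul_le_mul_of_nonneg_left ?_ (prod_nonneg fun j _ => hX0 j ψ)
          exact Finset.prod_le_prod (fun j _ => hX0 j ψ) (fun j _ => hXle j ψ)
      _ = (∑ ψ, ∏ j ∈ J, X j ψ) * ∏ j ∈ Jᶜ, ((B j).card : ℝ) ^ 2 := by
          rw [Finset.sum_mul]
      _ ≤ (P * N) * ∏ j ∈ Jᶜ, ((B j).card : ℝ) ^ 2 :=
          mul_le_mul_of_nonneg_right hsumψ (prod_nonneg fun j _ => by positivity)
      _ = _ := by ring
  exact le_of_mul_le_mul_left hfin hN0

end Pool.Agent.H33.AF
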